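import Pool.Agent.helper36.YB.Spec

set_option autoImplicit false

/-!
# Project yb, row MDD: mu chi * mu chi c8 in short form (hyperbola method; the first two lemmas are copied from helper79/YB/PRX)
-/

open Finset
open Pool.Agent.FI Pool.Agent.HK Pool.Agent.BP
open Pool.Agent.CH (nit rgh ll2)
open Pool.Agent.SK (tr0 Th)

noncomputable section

namespace Pool.Agent.YB

private lemma MDD_aux (F : ℕ → ℕ → ℂ) (x s : ℕ) (hs : s ≤ x) :
    ∑ a ∈ Ioc 0 x, ∑ b ∈ Ioc 0 x, (if a * b ≤ x ∧ a ≤ s then F a b else 0)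
      = ∑ a ∈ Ioc 0 s, ∑ b ∈ Ioc 0 (x / a), F a b := by
  have h1 : ∀ a ∈ Ioc 0 x, ∑ b ∈ Ioc 0 x, (if a * b ≤ x ∧ a ≤ s then F a b else 0)
      = if a ≤ s then ∑ b ∈ Ioc 0 (x / a), F a b else 0 := by
    intro a ha
    rw [mem_Ioc] at ha
    split_ifs with h
    · rw [← sum_filter]
      refine sum_congr ?_ fun _ _ => rfl
      ext b
      simp only [mem_filter, mem_Ioc, and_true, h]
      rw [Nat.le_div_iff_mul_le (by omega), mul_comm b a]
      constructor
      · rintro ⟨⟨h2, h3⟩, h4⟩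
        exact ⟨h2, h4⟩
      · rintro ⟨h2, h3⟩
        exact ⟨⟨h2, le_trans (Nat.le_mul_of_pos_left b (by omega)) h3⟩, h3⟩
    · exact sum_eq_zero fun b _ => if_neg fun h2 => h h2.2
  rw [sum_congr rfl h1, ← sum_filter]
  refine sum_congr ?_ fun _ _ => rfl
  ext a
  simp only [mem_filter, mem_Ioc]
  omega

private lemma MDD_hyp (f g : ArithmeticFunction ℂ) (x s : ℕ) (hs : s * s ≤ x)
    (hs' : x < (s + 1) * (s + 1)) :
    ∑ n ∈ Ioc 0 x, (f * g) n = ∑ a ∈ Ioc 0 s, f a * ∑ b ∈ Ioc 0 (x / a), g b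
      + ∑ b ∈ Ioc 0 s, g b * ∑ a ∈ Ioc 0 (x / b), f a
      - (∑ a ∈ Ioc 0 s, f a) * ∑ b ∈ Ioc 0 s, g b := by
  have hsx : s ≤ x := le_trans (Nat.le_mul_self s) hs
  have h0 : ∑ n ∈ Ioc 0 x, (f * g) n
      = ∑ a ∈ Ioc 0 x, ∑ b ∈ Ioc 0 x, if a * b ≤ x then f a * g b else 0 := by
    have := ArithmeticFunction.sum_Ioc_mul_eq_sum_prod_filter f g x
    rw [sum_filter, sum_product] at this
    exact this
  have h1 : ∀ a ∈ Ioc 0 x, ∀ b ∈ Ioc 0 x, (if a * b ≤ x then f a * g b else 0)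
      = (if a * b ≤ x ∧ a ≤ s then f a * g b else 0) + (if b * a ≤ x ∧ b ≤ s then f a * g b else 0)
        - (if a ≤ s ∧ b ≤ s then f a * g b else 0) := by
    intro a _ b _
    rw [mul_comm b a]
    by_cases h2 : a ≤ s <;> by_cases h3 : b ≤ s
    · have h4 : a * b ≤ x := le_trans (Nat.mul_le_mul h2 h3) hs
      simp [h2, h3, h4]
    · simp [h2, h3]
    · simp [h2, h3]
    · have h4 : ¬ a * b ≤ x := by
        have := Nat.mul_le_mul (show s + 1 ≤ a by omega) (show s + 1 ≤ b by omega)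
        omega
      simp [h2, h3, h4]
  rw [h0, sum_congr rfl fun a ha => sum_congr rfl fun b hb => h1 a ha b hb]
  simp only [sum_add_distrib, sum_sub_distrib]
  rw [MDD_aux (fun a b => f a * g b) x s hsx, sum_comm,
    show ∑ b ∈ Ioc 0 x, ∑ a ∈ Ioc 0 x, (if b * a ≤ x ∧ b ≤ s then f a * g b else 0)
      = ∑ b ∈ Ioc 0 s, ∑ a ∈ Ioc 0 (x / b), f a * g b from
      MDD_aux (fun b a => f a * g b) x s hsx]
  have h2 : ∑ a ∈ Ioc 0 x, ∑ b ∈ Ioc 0 x, (if a ≤ s ∧ b ≤ s then f a * g b else 0)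
      = (∑ a ∈ Ioc 0 s, f a) * ∑ b ∈ Ioc 0 s, g b := by
    rw [sum_mul_sum]
    have h3 : (Ioc 0 x).filter (fun a => a ≤ s) = Ioc 0 s := by
      ext a
      simp only [mem_filter, mem_Ioc]
      omega
    rw [← h3, sum_filter]
    refine sum_congr rfl fun a _ => ?_
    by_cases h4 : a ≤ s
    · simp only [h4, true_and, if_true]
      rw [sum_filter]
    · simp [h4]
  rw [h2]
  congr 2
  · exact sum_congr rfl fun a _ => by rw [mul_sum]
  · exact sum_congr rfl fun b _ => by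
      rw [mul_sum]
      exact sum_congr rfl fun a _ => by ring


private lemma MDD_nn (t x : ℝ) : ‖nit t x‖ = 1 := by
  unfold nit
  exact Complex.norm_exp_ofReal_mul_I _

private lemma MDD_nm (t x y : ℝ) (hx : 0 < x) (hy : 0 < y) :
    nit t (x * y) = nit t x * nit t y := by
  unfold nit
  rw [← Complex.exp_add, Real.log_mul hx.ne' hy.ne']
  congr 1
  push_cast
  ring

/-- the character `c8 * χ` modulo `8 q` -/
private lemma MDD_chi (q : ℕ) (χ : DirichletCharacter ℂ q) :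
    ∃ ψ : DirichletCharacter ℂ (8 * q), ∀ n : ℕ, ψ (n : ZMod (8 * q)) = c8 n * χ (n : ZMod q) := by
  set χ8 : DirichletCharacter ℂ 8 := ZMod.χ₈.ringHomComp (Int.castRingHom ℂ) with hχ8
  have h8 : 8 ∣ 8 * q := Dvd.intro _ rfl
  have hq8 : q ∣ 8 * q := Dvd.intro_left _ rfl
  have hv8 : ∀ n : ℕ, χ8 (n : ZMod 8) = c8 n := by
    intro n
    rw [hχ8, MulChar.ringHomComp_apply, ZMod.χ₈_nat_eq_if_mod_eight]
    unfold c8 ch8
    have h1 : n % 8 < 8 := Nat.mod_lt _ (by norm_num)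
    have h2 : n % 2 = (n % 8) % 2 := by omega
    rw [h2]
    interval_cases h : n % 8 <;> simp
  refine ⟨DirichletCharacter.changeLevel h8 χ8 * DirichletCharacter.changeLevel hq8 χ, fun n => ?_⟩
  by_cases hn : Nat.Coprime n (8 * q)
  · have hu : ((ZMod.unitOfCoprime n hn : (ZMod (8 * q))ˣ) : ZMod (8 * q)) = (n : ZMod (8 * q)) :=
      ZMod.coe_unitOfCoprime n hn
    rw [MulChar.mul_apply, ← hu, DirichletCharacter.changeLevel_eq_cast_of_dvd,
      DirichletCharacter.changeLevel_eq_cast_of_dvd, hu, ← hv8]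
    congr 2
    · rw [ZMod.cast_natCast h8]
    · rw [ZMod.cast_natCast hq8]
  · have h1 : ¬ IsUnit (n : ZMod (8 * q)) := by
      rw [ZMod.isUnit_iff_coprime]
      exact hn
    rw [MulChar.map_nonunit _ h1]
    symm
    rw [Nat.coprime_mul_iff_right, not_and_or] at hn
    rcases hn with h2 | h2
    · have : ¬ IsUnit (n : ZMod 8) := by
        rw [ZMod.isUnit_iff_coprime]
        exact h2
      rw [← hv8, MulChar.map_nonunit _ this, zero_mul]
    · have : ¬ IsUnit (n : ZMod q) := by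
        rw [ZMod.isUnit_iff_coprime]
        exact h2
      rw [MulChar.map_nonunit _ this, mul_zero]

private lemma MDD_c8 (n : ℕ) : ‖c8 n‖ ≤ 1 := by
  unfold c8 ch8
  split_ifs <;> simp

private lemma MDD_mg (g : ℕ → ℂ) (hg : ∀ n, ‖g n‖ ≤ 1) (n : ℕ) : ‖mg g n‖ ≤ 1 := by
  unfold mg
  rw [norm_mul]
  have h1 : ‖((ArithmeticFunction.moebius n : ℤ) : ℂ)‖ ≤ 1 := by
    rw [Complex.norm_intCast]
    exact_mod_cast ArithmeticFunction.abs_moebius_le_one
  exact mul_le_one₀ h1 (norm_nonneg _) (hg n)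

/-- the arithmetic function `mg g * nit t` -/
private def MDD_A (g : ℕ → ℂ) (t : ℝ) : ArithmeticFunction ℂ :=
  ⟨fun n => mg g n * nit t n, by simp [mg]⟩

private lemma MDD_Aa (g : ℕ → ℂ) (t : ℝ) (n : ℕ) : MDD_A g t n = mg g n * nit t n := rfl

private lemma MDD_cv (g h : ℕ → ℂ) (t : ℝ) (n : ℕ) :
    (MDD_A g t * MDD_A h t) n = cv (mg g) (mg h) n * nit t n := by
  rw [ArithmeticFunction.mul_apply]
  unfold cv
  rw [Finset.sum_mul]
  refine Finset.sum_congr rfl fun d hd => ?_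
  obtain ⟨h2, h3⟩ := Nat.mem_divisorsAntidiagonal.1 hd
  have h4 : 0 < d.1 := Nat.pos_of_ne_zero fun h => h3 (by rw [← h2, h, zero_mul])
  have h5 : 0 < d.2 := Nat.pos_of_ne_zero fun h => h3 (by rw [← h2, h, mul_zero])
  rw [MDD_Aa, MDD_Aa, ← h2]
  push_cast
  rw [MDD_nm t d.1 d.2 (by exact_mod_cast h4) (by exact_mod_cast h5)]
  ring

/-- harmonic sum -/
private lemma MDD_har (s : ℕ) : ∑ a ∈ Ioc 0 s, (1 : ℝ) / a ≤ 1 + Real.log s := by
  have h1 := harmonic_le_one_add_log s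
  have h2 : ((harmonic s : ℚ) : ℝ) = ∑ a ∈ Ioc 0 s, (1 : ℝ) / a := by
    rw [harmonic_eq_sum_Icc]
    push_cast
    have : Icc 1 s = Ioc 0 s := by
      ext a
      simp only [mem_Icc, mem_Ioc]
      omega
    rw [this]
    refine Finset.sum_congr rfl fun a _ => ?_
    rw [one_div]
  rw [← h2]
  exact h1

theorem MDD (hMUT : MUT_stmt) : MDD_stmt := by
  intro A B K
  obtain ⟨y₀, hy₀⟩ := hMUT (A + 2) (B + 1) (3 * K)
  set c : ℝ := 5 * 3 ^ (A + 2) with hc
  have e1 : ∀ᶠ x : ℝ in Filter.atTop, max (max c (3 * (8 * 3 ^ B))) 1 ≤ Real.log x :=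
    Real.tendsto_log_atTop.eventually_ge_atTop _
  have e2 : ∀ᶠ x : ℝ in Filter.atTop, max (max y₀ 1) 8 ≤ x ^ (1 / 3 : ℝ) :=
    (tendsto_rpow_atTop (by norm_num : (0 : ℝ) < 1 / 3)).eventually_ge_atTop _
  obtain ⟨x₀, hx₀⟩ := Filter.eventually_atTop.1 ((e1.and e2).and (Filter.eventually_ge_atTop 64))
  refine ⟨x₀, fun x hx q hq hqx χ t ht => ?_⟩
  obtain ⟨⟨hL, hY⟩, hx64⟩ := hx₀ x hx
  have hL1 : c ≤ Real.log x := le_trans (le_trans (le_max_left _ _) (le_max_left _ _)) hL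
  have hL2 : 3 * (8 * 3 ^ B) ≤ Real.log x :=
    le_trans (le_trans (le_max_right _ _) (le_max_left _ _)) hL
  have hL3 : 1 ≤ Real.log x := le_trans (le_max_right _ _) hL
  have hY1 : y₀ ≤ x ^ (1 / 3 : ℝ) := le_trans (le_trans (le_max_left _ _) (le_max_left _ _)) hY
  have hY2 : 8 ≤ x ^ (1 / 3 : ℝ) := le_trans (le_max_right _ _) hY
  have hx0 : 0 < x := by linarith
  set X : ℕ := ⌊x⌋₊ with hX
  have hXx : (X : ℝ) ≤ x := Nat.floor_le hx0.le
  have hxX : x < X + 1 := Nat.lt_floor_add_one x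
  set s : ℕ := Nat.sqrt X with hs
  have hs1 : s * s ≤ X := Nat.sqrt_le X
  have hs2 : X < (s + 1) * (s + 1) := Nat.lt_succ_sqrt X
  set u : ℝ := x ^ (1 / 3 : ℝ) with hu
  have hu3 : u ^ 3 = x := by
    rw [hu, ← Real.rpow_natCast, ← Real.rpow_mul hx0.le]
    norm_num
  have hus : u ≤ s := by
    by_contra hcon
    push Not at hcon
    have h1 : (X : ℝ) + 1 ≤ ((s : ℝ) + 1) * (s + 1) := by exact_mod_cast hs2
    have h2 : u ^ 3 < (u + 1) * (u + 1) := by
      rw [hu3]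
      have h3 : ((s : ℝ) + 1) * (s + 1) ≤ (u + 1) * (u + 1) :=
        mul_le_mul (by linarith) (by linarith) (by positivity) (by linarith)
      linarith
    nlinarith [mul_nonneg (by linarith : (0 : ℝ) ≤ u) (by linarith : (0 : ℝ) ≤ u - 8)]
  have hs0 : 1 ≤ s := by
    have : (1 : ℝ) ≤ s := by linarith
    exact_mod_cast this
  -- bounds for the two sums
  have key : ∀ (Q : ℕ) (ψ : DirichletCharacter ℂ Q), 1 ≤ Q → (Q : ℝ) ≤ 8 * Real.log x ^ B →
      ∀ m : ℕ, s ≤ m → m ≤ X → ‖∑ n ∈ Ioc 0 m, mg (fun n => ψ (n : ZMod Q)) n * nit t n‖ ≤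
        m * (3 ^ (A + 2) / Real.log x ^ (A + 2)) := by
    intro Q ψ hQ hQx m hm hmX
    have hum : u ≤ m := le_trans hus (by exact_mod_cast hm)
    have hm0 : (0 : ℝ) < m := by linarith
    have hlog : Real.log x / 3 ≤ Real.log m := by
      have h1 : Real.log x = 3 * Real.log u := by
        rw [← hu3, Real.log_pow]
        norm_num
      have h2 : Real.log u ≤ Real.log m := Real.log_le_log (by linarith) hum
      linarith
    have hlm : 0 < Real.log m := by linarith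
    have h1 := hy₀ m (le_trans hY1 hum) Q hQ ?_ ψ t ?_
    · rw [Nat.floor_natCast] at h1
      refine h1.trans ?_
      rw [div_eq_mul_inv]
      refine mul_le_mul_of_nonneg_left ?_ hm0.le
      rw [← one_div, div_le_div_iff₀ (by positivity) (by positivity), one_mul]
      calc Real.log x ^ (A + 2) = (3 * (Real.log x / 3)) ^ (A + 2) := by
            congr 1
            ring
        _ = 3 ^ (A + 2) * (Real.log x / 3) ^ (A + 2) := by rw [mul_pow]
        _ ≤ 3 ^ (A + 2) * Real.log m ^ (A + 2) :=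
            mul_le_mul_of_nonneg_left (pow_le_pow_left₀ (by positivity) hlog _) (by positivity)
    · calc (Q : ℝ) ≤ 8 * Real.log x ^ B := hQx
        _ = 8 * 3 ^ B * (Real.log x / 3) ^ B := by
            rw [mul_assoc, ← mul_pow]
            congr 2
            ring
        _ ≤ Real.log m * Real.log m ^ B := by
            refine mul_le_mul ?_ (pow_le_pow_left₀ (by positivity) hlog _) (by positivity)
              (by linarith [hlog])
            linarith
        _ = Real.log m ^ (B + 1) := by ring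
    · calc |t| ≤ x ^ K := ht
        _ = u ^ (3 * K) := by rw [← hu3, ← pow_mul]
        _ ≤ (m : ℝ) ^ (3 * K) := pow_le_pow_left₀ (by linarith) hum _
  obtain ⟨ψ, hψ⟩ := MDD_chi q χ
  set D : ℝ := 3 ^ (A + 2) / Real.log x ^ (A + 2) with hD
  have hD0 : 0 ≤ D := by positivity
  have hlogB : 1 ≤ Real.log x ^ B := one_le_pow₀ hL3
  have kP := key q χ hq (by linarith)
  have kQ' := key (8 * q) ψ (by omega) (by push_cast; linarith)
  have kQ : ∀ m : ℕ, s ≤ m → m ≤ X →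
      ‖∑ n ∈ Ioc 0 m, mg (fun n => c8 n * χ (n : ZMod q)) n * nit t n‖ ≤ m * D := by
    intro m h1 h2
    have h3 := kQ' m h1 h2
    have h4 : ∀ n : ℕ, mg (fun n => ψ (n : ZMod (8 * q))) n =
        mg (fun n => c8 n * χ (n : ZMod q)) n := by
      intro n
      unfold mg
      simp only [hψ]
    simpa only [h4] using h3
  have hχ1 : ∀ n : ℕ, ‖χ (n : ZMod q)‖ ≤ 1 := fun n => χ.norm_le_one _
  have hχ2 : ∀ n : ℕ, ‖c8 n * χ (n : ZMod q)‖ ≤ 1 := fun n => by
    rw [norm_mul]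
    exact mul_le_one₀ (MDD_c8 n) (norm_nonneg _) (hχ1 n)
  set f := MDD_A (fun n => χ (n : ZMod q)) t with hf
  set g := MDD_A (fun n => c8 n * χ (n : ZMod q)) t with hg
  have hfn : ∀ n, ‖f n‖ ≤ 1 := fun n => by
    rw [hf, MDD_Aa, norm_mul, MDD_nn, mul_one]
    exact MDD_mg _ hχ1 n
  have hgn : ∀ n, ‖g n‖ ≤ 1 := fun n => by
    rw [hg, MDD_Aa, norm_mul, MDD_nn, mul_one]
    exact MDD_mg _ hχ2 n
  have hsum : ∑ n ∈ Ioc 0 X, cv (mg (fun n => χ (n : ZMod q)))
      (mg (fun n => c8 n * χ (n : ZMod q))) n * nit t n = ∑ n ∈ Ioc 0 X, (f * g) n :=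
    Finset.sum_congr rfl fun n _ => (MDD_cv _ _ _ _).symm
  rw [hsum, MDD_hyp f g X s hs1 hs2]
  have hXa : ∀ a ∈ Ioc 0 s, s ≤ X / a ∧ X / a ≤ X := by
    intro a ha
    rw [mem_Ioc] at ha
    refine ⟨?_, Nat.div_le_self _ _⟩
    rw [Nat.le_div_iff_mul_le ha.1]
    exact le_trans (Nat.mul_le_mul_left s ha.2) hs1
  have hgen : ∀ F G : ArithmeticFunction ℂ, (∀ n, ‖F n‖ ≤ 1) →
      (∀ m : ℕ, s ≤ m → m ≤ X → ‖∑ n ∈ Ioc 0 m, G n‖ ≤ m * D) →
      ‖∑ a ∈ Ioc 0 s, F a * ∑ b ∈ Ioc 0 (X / a), G b‖ ≤ x * D * (1 + Real.log s) := by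
    intro F G hF hG
    calc ‖∑ a ∈ Ioc 0 s, F a * ∑ b ∈ Ioc 0 (X / a), G b‖
        ≤ ∑ a ∈ Ioc 0 s, x * D * (1 / (a : ℝ)) := by
          refine norm_sum_le_of_le _ fun a ha => ?_
          obtain ⟨h1, h2⟩ := hXa a ha
          have ha0 : (0 : ℝ) < a := by
            rw [mem_Ioc] at ha
            exact_mod_cast ha.1
          rw [norm_mul]
          calc ‖F a‖ * ‖∑ b ∈ Ioc 0 (X / a), G b‖ ≤ 1 * (((X / a : ℕ) : ℝ) * D) :=
                mul_le_mul (hF a) (hG _ h1 h2) (norm_nonneg _) zero_le_one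
            _ ≤ (x / a) * D := by
                rw [one_mul]
                refine mul_le_mul_of_nonneg_right ?_ hD0
                calc ((X / a : ℕ) : ℝ) ≤ (X : ℝ) / a := Nat.cast_div_le
                  _ ≤ x / a := by gcongr
            _ = x * D * (1 / (a : ℝ)) := by ring
      _ = x * D * ∑ a ∈ Ioc 0 s, 1 / (a : ℝ) := by rw [mul_sum]
      _ ≤ x * D * (1 + Real.log s) :=
          mul_le_mul_of_nonneg_left (MDD_har s) (by positivity)
  have hb1 := hgen f g hfn kQ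
  have hb2 := hgen g f hgn kP
  have hsX : s ≤ X := le_trans (Nat.le_mul_self s) hs1
  have hb3 : ‖(∑ a ∈ Ioc 0 s, f a) * ∑ b ∈ Ioc 0 s, g b‖ ≤ x * D := by
    rw [norm_mul]
    have h1 : ‖∑ a ∈ Ioc 0 s, f a‖ ≤ s := by
      calc ‖∑ a ∈ Ioc 0 s, f a‖ ≤ ∑ _a ∈ Ioc 0 s, (1 : ℝ) :=
            norm_sum_le_of_le _ fun a _ => hfn a
        _ = s := by simp
    calc ‖∑ a ∈ Ioc 0 s, f a‖ * ‖∑ b ∈ Ioc 0 s, g b‖ ≤ s * (s * D) :=
          mul_le_mul h1 (kQ s le_rfl hsX) (norm_nonneg _) (by positivity)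
      _ = ((s * s : ℕ) : ℝ) * D := by
          push_cast
          ring
      _ ≤ x * D := by
          refine mul_le_mul_of_nonneg_right ?_ hD0
          exact le_trans (by exact_mod_cast hs1) hXx
  have hlogs : Real.log s ≤ Real.log x := by
    refine Real.log_le_log (by linarith) ?_
    exact le_trans (by exact_mod_cast hsX) hXx
  have hlogA : Real.log x ^ (A + 2) = Real.log x ^ A * (Real.log x * Real.log x) := by ring
  calc _ ≤ x * D * (1 + Real.log s) + x * D * (1 + Real.log s) + x * D :=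
        (norm_sub_le _ _).trans (add_le_add ((norm_add_le _ _).trans (add_le_add hb1 hb2)) hb3)
    _ = x * D * (3 + 2 * Real.log s) := by ring
    _ ≤ x * D * (5 * Real.log x) :=
        mul_le_mul_of_nonneg_left (by linarith) (by positivity)
    _ = x / Real.log x ^ A * (c / Real.log x) := by
        rw [hD, hc, hlogA]
        field_simp
    _ ≤ x / Real.log x ^ A * 1 := by
        refine mul_le_mul_of_nonneg_left ?_ (by positivity)
        rw [div_le_one (by linarith)]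
        exact hL1
    _ = x / Real.log x ^ A := mul_one _

end Pool.Agent.YB
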